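import Mathlib
import Pool.Agent.V1129.ThF2

set_option autoImplicit false

/-!
Every boomerang subgroup of Thompson's group `F` is normal.
-/

namespace Pool.Agent.Results.MP_bd6a20_al.BoomerangNormal

open Pool.Agent.V1129.Boom Pool.Agent.V1129.ThF

/-- Every boomerang subgroup of Thompson's group `F` is a normal subgroup of `F`. -/
theorem result : ∀ Δ : Subgroup ThompsonF, IsBoomerang Δ → Δ.Normal :=
  normal_of_isBoomerang

end Pool.Agent.Results.MP_bd6a20_al.BoomerangNormal
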